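import Pool.Agent.Run7.h251.HT.Tower

/-!
# Hamiltonian paths along normal series: steps of index three and steps with two cosets
-/

set_option autoImplicit false

namespace Run7.h251.HT

open scoped commutatorElement
open Pool.Agent.N47.CG

universe u

variable {G : Type u} [Group G]

theorem map_zp {L : Subgroup G} {z : G} (hz : z ∈ L) :
    (Subgroup.zpowers (⟨z, hz⟩ : ↥L)).map L.subtype = Subgroup.zpowers z := by
  rw [MonoidHom.map_zpowers]
  rfl

theorem mem_zp {N L : Subgroup G} (h : N ≤ L) {z : G} (hz : z ∈ L) (x : ↥L) :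
    x ∈ N.subgroupOf L ⊔ Subgroup.zpowers (⟨z, hz⟩ : ↥L) ↔ (x : G) ∈ N ⊔ Subgroup.zpowers z := by
  rw [memL, Subgroup.map_sup, map_sub h, map_zp hz]

/-- the condition on `z` in a step of index three -/
def Cond3 (S : Set G) (N A L : Subgroup G) (z : G) : Prop :=
  (S ∩ L ⊆ (N ⊔ Subgroup.zpowers z : Subgroup G)) ∨
    ∃ s ∈ S ∩ L, s ∉ N ⊔ Subgroup.zpowers z ∧
      (s ∉ A ∨ (∀ m : ℕ, s ^ m ∈ N ⊔ Subgroup.zpowers z → Even m) ∨
        z * s * z⁻¹ * s⁻¹ ∈ N ⊔ Subgroup.zpowers z ∨
        ∃ i j : ℤ, (z ^ 3)⁻¹ *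
          (s ^ i * (s * (z * s * z⁻¹) * (z ^ 2 * s * (z ^ 2)⁻¹) * z ^ 3) ^ j) ∈ N)

/-- step of index three -/
theorem step_three [Finite G] {S : Set G} (hS : ∀ x ∈ S, x⁻¹ ∈ S) {N A L : Subgroup G}
    (hA : Sec N A L) (hnorm : ∀ x ∈ L, ∀ n ∈ N, x * n * x⁻¹ ∈ N)
    (hgen : Subgroup.closure (S ∩ L) = L) (h3 : A.relIndex L = 3) {z : G} (hz : z ∈ S)
    (hzL : z ∈ L) (hzA : z ∉ A) (hex : Cond3 S N A L z) (hp : HasPath S N) : HasPath S L := by
  refine rel hS (hA.le.trans hA.le') hnorm hgen hp fun S' hS' h1 h2' h3' h4 => ?_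
  obtain ⟨x₀, y₀, h5⟩ := ham_of_list h4
  have i1 := hA.normal'
  have hzS' : (⟨z, hzL⟩ : ↥L) ∈ S' := by rw [hS']; exact hz
  obtain ⟨s, hs, y, hy⟩ := quot_three (z := (⟨z, hzL⟩ : ↥L)) h1 h2' hA.le2 hA.comm' h5 hzS'
    (fun h => hzA (Subgroup.mem_subgroupOf.1 h)) h3
    (by
      rcases hex with h | ⟨s, ⟨hs, hsL⟩, hsz, h⟩
      · left
        intro x hx
        rw [SetLike.mem_coe, mem_zp (hA.le.trans hA.le')]
        rw [hS'] at hx
        exact h ⟨hx, x.2⟩
      · right
        refine ⟨⟨s, hsL⟩, by rw [hS']; exact hs, ?_, ?_⟩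
        · rw [mem_zp (hA.le.trans hA.le')]
          exact hsz
        rcases h with h | h | h | ⟨i, j, h⟩
        · left
          rw [Subgroup.mem_subgroupOf]
          exact h
        · right; left
          intro m hm
          rw [mem_zp (hA.le.trans hA.le')] at hm
          exact h m (by simpa using hm)
        · right; right; left
          rw [mem_zp (hA.le.trans hA.le')]
          exact h
        · right; right; right
          refine ⟨i, j, ?_⟩
          rw [Subgroup.mem_subgroupOf]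
          simpa using h)
  exact hasPath_of_ham hy

/-- the group generated by `N` and the conjugates of `d` by `1, z, z², z³` -/
def Win (N : Subgroup G) (z d : G) : Subgroup G :=
  N ⊔ Subgroup.closure {x | ∃ i : ℕ, i < 4 ∧ x = z ^ i * d * (z ^ i)⁻¹}

/-- the condition of degree four -/
def Deg4 (S : Set G) (N A L : Subgroup G) (z : G) : Prop :=
  A.relIndex L ≤ 4 ∨ (∃ T : Finset G, T.card ≤ 4 ∧ A = N ⊔ Subgroup.closure (T : Set G)) ∨
    ∀ d ∈ A, d * z ∈ S → z ^ 4 * d * (z ^ 4)⁻¹ ∈ Win N z d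

/-- step in which the generators are contained in two cosets of an abelian section -/
theorem step_cosets [Finite G] {S : Set G} (hS : ∀ x ∈ S, x⁻¹ ∈ S) {N A L : Subgroup G}
    (hA : Sec N A L) (hnorm : ∀ x ∈ L, ∀ n ∈ N, x * n * x⁻¹ ∈ N)
    (hgen : Subgroup.closure (S ∩ L) = L) {z : G} (hz : z ∈ S)
    (hzL : z ∈ L) (hcos : ∀ s ∈ S ∩ L, s ∈ N ∨ s * z⁻¹ ∈ A ∨ s * z ∈ A)
    (hdeg : Deg4 S N A L z) (hp : HasPath S N) : HasPath S L := by
  classical
  refine rel hS (hA.le.trans hA.le') hnorm hgen hp fun S' hS' h1 h2' h3' h4 => ?_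
  obtain ⟨x₀, y₀, h5⟩ := ham_of_list h4
  have i1 := hA.normal'
  have hzS' : (⟨z, hzL⟩ : ↥L) ∈ S' := by rw [hS']; exact hz
  have hNL := hA.le.trans hA.le'
  obtain ⟨s, hs, y, hy⟩ := main3 (z := (⟨z, hzL⟩ : ↥L)) h1 h2' hA.le2 hA.comm' h5 hzS'
    (by
      intro s hs
      rw [hS'] at hs
      rcases hcos s ⟨hs, s.2⟩ with h | h | h
      · left; rw [Subgroup.mem_subgroupOf]; exact h
      · right; left; rw [Subgroup.mem_subgroupOf]; exact h
      · right; right; rw [Subgroup.mem_subgroupOf]; exact h)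
    (by
      intro d hd hdz
      refine deg_U4 ?_
      rcases hdeg with h | ⟨T, hT4, hT⟩ | h
      · exact deg_of_index hA.comm' h hd
      · have hTL : ∀ t ∈ T, t ∈ L := fun t ht => hA.le' (by
          rw [hT]
          exact Subgroup.mem_sup_right (Subgroup.subset_closure ht))
        refine deg_of_gen hA.le2 hA.comm' (T.attach.image fun t => (⟨t.1, hTL t.1 t.2⟩ : ↥L)) ?_ ?_
          hd
        · refine Finset.card_image_le.trans ?_
          rw [Finset.card_attach]
          exact hT4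
        · apply Subgroup.map_injective L.subtype_injective
          rw [Subgroup.map_sup, map_sub hNL, map_sub hA.le', MonoidHom.map_closure]
          refine hT.trans ?_
          congr 2
          ext x
          simp only [Finset.coe_image, Set.mem_image, Finset.mem_coe, Finset.mem_attach,
            true_and, Subtype.exists, Subgroup.subtype_apply]
          constructor
          · intro hx
            exact ⟨x, hTL x hx, ⟨x, hx, rfl⟩, rfl⟩
          · rintro ⟨a, ha, ⟨t, ht, h⟩, rfl⟩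
            rw [Subtype.mk.injEq] at h
            rwa [← h]
      · rw [memL, Subgroup.map_sup, map_sub hNL, MonoidHom.map_closure]
        have h6 := h d (Subgroup.mem_subgroupOf.1 hd) (by
          rw [hS'] at hdz
          exact hdz)
        unfold Win at h6
        refine (sup_le_sup_left ?_ N) h6
        rw [Subgroup.closure_le]
        rintro _ ⟨i, hi, rfl⟩
        apply Subgroup.subset_closure
        exact ⟨(⟨z, hzL⟩ : ↥L) ^ i * d * ((⟨z, hzL⟩ : ↥L) ^ i)⁻¹, ⟨i, hi, rfl⟩, rfl⟩)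
  exact hasPath_of_ham hy

end Run7.h251.HT
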