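import Pool.Agent.N47.CG.Quot
import Pool.Agent.N47.CG.LMain3
import Pool.Agent.Run7.h90.Ham.Final

/-!
# Hamiltonian paths along normal series: one step of each kind
-/

set_option autoImplicit false

namespace Run7.h251.HT

open scoped commutatorElement
open Pool.Agent.N47.CG

universe u

/-- there is a path in `Cay(G, S)` which visits exactly the elements of `N` -/
def HasPath {G : Type u} [Group G] (S : Set G) (N : Subgroup G) : Prop :=
  ∃ p : List G, p.Nodup ∧ (∀ g, g ∈ p ↔ g ∈ N) ∧ p.IsChain (fun g h => g⁻¹ * h ∈ S)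

theorem hasPath_of_ham {G : Type u} [Group G] {S : Set G} {x y : G}
    (h : Ham S ⊥ Set.univ x y) : HasPath S (⊤ : Subgroup G) := by
  obtain ⟨p, h1, h2, -, h4, -, -⟩ := h
  have h3 : p.Nodup := h2.imp fun {a b} hab he => hab (by
    rw [he, inv_mul_cancel]
    exact Subgroup.one_mem _)
  refine ⟨p, h3, fun g => ⟨fun _ => trivial, fun _ => ?_⟩, h1⟩
  obtain ⟨h, hh, hg⟩ := h4 g trivial
  rw [Subgroup.mem_bot, inv_mul_eq_one] at hg
  rwa [← hg]

theorem listing_of_path {G : Type u} [Group G] [Finite G] {S : Set G} (hne : S.Nonempty)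
    (h : HasPath S (⊤ : Subgroup G)) :
    ∃ a : Fin (Nat.card G) → G, (∀ i, a i ∈ S) ∧
      Function.Injective (fun k : Fin (Nat.card G) => ((List.ofFn a).take (k.val + 1)).prod) := by
  obtain ⟨p, p1, p2, p3⟩ := h
  have hp0 : p ≠ [] := by
    rintro rfl
    exact absurd ((p2 1).2 (Subgroup.one_mem _)) (by simp)
  refine Pool.Agent.Run7.h90.Ham.listing hne (x := p.head hp0) (y := p.getLast hp0)
    ⟨p, p1, fun g => ?_, p3, List.head?_eq_some_head hp0, List.getLast?_eq_some_getLast hp0⟩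
  rw [p2]
  exact ⟨fun _ => trivial, fun _ => trivial⟩

section Gen

variable {G : Type u} [Group G]

/-- index two, modulo `N`, general form -/
theorem quot_two_gen [Finite G] {S : Set G} (hS : ∀ x ∈ S, x⁻¹ ∈ S)
    (hgen : Subgroup.closure S = ⊤) {A N : Subgroup G} [hNn : N.Normal] (hNA : N ≤ A)
    (h2 : A.index = 2)
    (hHn : ∀ a ∈ A, ∀ h ∈ S ∩ A, a * h * a⁻¹ ∈ N ⊔ Subgroup.closure (S ∩ A))
    (hc : ∀ g : G, ∀ a ∈ S ∩ A, ∀ b ∈ S ∩ A,
      a * (g * b * g⁻¹) * a⁻¹ * (g * b * g⁻¹)⁻¹ ∈ N)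
    (hcom : ∀ a ∈ A, ∀ b ∈ A, a * b * a⁻¹ * b⁻¹ ∈ N ⊔ Subgroup.normalClosure (S ∩ A))
    {x₀ y₀ : G} (hp : Ham S ⊥ N x₀ y₀) : ∃ s ∈ S, ∃ y, Ham S ⊥ Set.univ s y := by
  set φ := QuotientGroup.mk' N with hφ
  have hφs : Function.Surjective φ := QuotientGroup.mk'_surjective N
  have hi : (A.map φ).index = 2 := by
    rw [Subgroup.index_map_eq _ hφs (by rwa [hφ, QuotientGroup.ker_mk']), h2]
  have hmem : ∀ g : G, φ g ∈ A.map φ ↔ g ∈ A := by
    intro g
    constructor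
    · rintro ⟨a, ha, hag⟩
      have h1 : a⁻¹ * g ∈ N := by
        rw [hφ, QuotientGroup.mk'_apply, QuotientGroup.mk'_apply, QuotientGroup.eq] at hag
        exact hag
      have : g = a * (a⁻¹ * g) := by group
      rw [this]
      exact A.mul_mem ha (hNA h1)
    · intro hg
      exact ⟨g, hg, rfl⟩
  have hinter : (φ '' S) ∩ (A.map φ : Subgroup (G ⧸ N)) = φ '' (S ∩ A) := by
    ext x
    constructor
    · rintro ⟨⟨s, hs, rfl⟩, hx⟩
      exact ⟨s, ⟨hs, (hmem s).1 hx⟩, rfl⟩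
    · rintro ⟨s, ⟨hs, hsA⟩, rfl⟩
      exact ⟨⟨s, hs, rfl⟩, ⟨s, hsA, rfl⟩⟩
  have hcl : Subgroup.closure ((φ '' S) ∩ (A.map φ : Subgroup (G ⧸ N))) =
      (N ⊔ Subgroup.closure (S ∩ A)).map φ := by
    rw [hinter, ← MonoidHom.map_closure, Subgroup.map_sup]
    have : N.map φ = ⊥ := by
      rw [Subgroup.map_eq_bot_iff, hφ, QuotientGroup.ker_mk']
    rw [this, bot_sup_eq]
  have hncl : Subgroup.normalClosure ((φ '' S) ∩ (A.map φ : Subgroup (G ⧸ N))) =
      (N ⊔ Subgroup.normalClosure (S ∩ A)).map φ := by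
    rw [hinter, Subgroup.map_sup, Subgroup.map_normalClosure _ _ hφs]
    have : N.map φ = ⊥ := by
      rw [Subgroup.map_eq_bot_iff, hφ, QuotientGroup.ker_mk']
    rw [this, bot_sup_eq]
  obtain ⟨s, hs, y, hy⟩ := main (symm_map (N := N) hS) (gen_map hgen) hi
    (by
      rintro a ⟨a', ha', rfl⟩ h hh
      rw [hinter] at hh
      obtain ⟨h', hh', rfl⟩ := hh
      rw [hcl]
      refine ⟨a' * h' * a'⁻¹, hHn a' ha' h' hh', ?_⟩
      rw [map_mul, map_mul, map_inv])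
    (by
      intro g a ha b hb
      rw [hinter] at ha hb
      obtain ⟨g, rfl⟩ := hφs g
      obtain ⟨a, ha, rfl⟩ := ha
      obtain ⟨b, hb, rfl⟩ := hb
      have h1 := hc g a ha b hb
      have h2 : φ (a * (g * b * g⁻¹) * a⁻¹ * (g * b * g⁻¹)⁻¹) = 1 := by
        rw [hφ, QuotientGroup.mk'_apply, QuotientGroup.eq_one_iff]
        exact h1
      rw [map_mul, map_mul, map_mul, map_inv, map_inv, mul_inv_eq_one, mul_inv_eq_iff_eq_mul,
        map_mul, map_mul, map_inv] at h2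
      exact h2)
    (by
      rintro a ⟨a', ha', rfl⟩ b ⟨b', hb', rfl⟩
      rw [hncl]
      refine ⟨a' * b' * a'⁻¹ * b'⁻¹, hcom a' ha' b' hb', ?_⟩
      rw [map_mul, map_mul, map_mul, map_inv, map_inv])
  exact ham_quot (ham_one hp) hs hy

end Gen

section Rel

variable {G : Type u} [Group G]

/-- the passage to the group `L` -/
theorem rel [Finite G] {S : Set G} (hS : ∀ x ∈ S, x⁻¹ ∈ S) {N L : Subgroup G} (hNL : N ≤ L)
    (hnorm : ∀ x ∈ L, ∀ n ∈ N, x * n * x⁻¹ ∈ N) (hgen : Subgroup.closure (S ∩ L) = L)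
    (hp : HasPath S N)
    (key : ∀ S' : Set ↥L, S' = {x : ↥L | (x : G) ∈ S} → (∀ x ∈ S', x⁻¹ ∈ S') →
      Subgroup.closure S' = ⊤ → (N.subgroupOf L).Normal → HasPath S' (N.subgroupOf L) →
      HasPath S' (⊤ : Subgroup ↥L)) : HasPath S L := by
  classical
  let S' : Set ↥L := {x | (x : G) ∈ S}
  have hS' : ∀ x ∈ S', x⁻¹ ∈ S' := fun x hx => hS _ hx
  have hgen' : Subgroup.closure S' = ⊤ := by
    apply Subgroup.map_injective L.subtype_injective
    rw [MonoidHom.map_closure, ← MonoidHom.range_eq_map, Subgroup.range_subtype]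
    convert hgen using 2
    ext x
    constructor
    · rintro ⟨y, hy, rfl⟩
      exact ⟨hy, y.2⟩
    · rintro ⟨hx, hx'⟩
      exact ⟨⟨x, hx'⟩, hx, rfl⟩
  have hN : (N.subgroupOf L).Normal := by
    refine ⟨fun n hn g => ?_⟩
    rw [Subgroup.mem_subgroupOf] at hn ⊢
    exact hnorm g g.2 n hn
  obtain ⟨p, p1, p2, p3⟩ := hp
  have hpL : ∀ g ∈ p, g ∈ L := fun g hg => hNL ((p2 g).1 hg)
  lift p to List ↥L using hpL
  obtain ⟨q, q1, q2, q3⟩ := key S' rfl hS' hgen' hN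
    ⟨p, List.Nodup.of_map _ p1, fun g => by
      rw [Subgroup.mem_subgroupOf, ← p2]
      constructor
      · intro hg
        exact List.mem_map.2 ⟨g, hg, rfl⟩
      · intro hg
        obtain ⟨g', hg', h⟩ := List.mem_map.1 hg
        rwa [← Subtype.ext h], by
      rw [List.isChain_map] at p3
      exact p3⟩
  refine ⟨q.map (fun x : ↥L => (x : G)), q1.map Subtype.val_injective, fun g => ?_, ?_⟩
  · rw [List.mem_map]
    constructor
    · rintro ⟨x, -, rfl⟩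
      exact x.2
    · intro hg
      exact ⟨⟨g, hg⟩, (q2 _).2 trivial, rfl⟩
  · rw [List.isChain_map]
    exact q3

theorem memL {L : Subgroup G} {K : Subgroup ↥L} {x : ↥L} :
    x ∈ K ↔ (x : G) ∈ K.map L.subtype :=
  (Subgroup.mem_map_iff_mem L.subtype_injective).symm

theorem map_sub {N L : Subgroup G} (h : N ≤ L) : (N.subgroupOf L).map L.subtype = N :=
  Subgroup.map_subgroupOf_eq_of_le h

/-- `A / N` is an abelian normal subgroup of `L / N` -/
structure Sec (N A L : Subgroup G) : Prop where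
  le : N ≤ A
  le' : A ≤ L
  normal : ∀ x ∈ L, ∀ a ∈ A, x * a * x⁻¹ ∈ A
  comm : ∀ a ∈ A, ∀ b ∈ A, a * b * a⁻¹ * b⁻¹ ∈ N

theorem Sec.normal' {N A L : Subgroup G} (h : Sec N A L) : (A.subgroupOf L).Normal := by
  refine ⟨fun n hn g => ?_⟩
  rw [Subgroup.mem_subgroupOf] at hn ⊢
  exact h.normal g g.2 n hn

theorem Sec.comm' {N A L : Subgroup G} (h : Sec N A L) :
    ∀ a ∈ A.subgroupOf L, ∀ b ∈ A.subgroupOf L, a * b * a⁻¹ * b⁻¹ ∈ N.subgroupOf L := by
  intro a ha b hb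
  rw [Subgroup.mem_subgroupOf] at ha hb ⊢
  exact h.comm a ha b hb

theorem Sec.le2 {N A L : Subgroup G} (h : Sec N A L) : N.subgroupOf L ≤ A.subgroupOf L := by
  intro x hx
  rw [Subgroup.mem_subgroupOf] at hx ⊢
  exact h.le hx

/-- step with a factor of class at most two -/
theorem step_class_two [Finite G] {S : Set G} (hS : ∀ x ∈ S, x⁻¹ ∈ S) {N L : Subgroup G}
    (hNL : N ≤ L) (hnorm : ∀ x ∈ L, ∀ n ∈ N, x * n * x⁻¹ ∈ N)
    (hgen : Subgroup.closure (S ∩ L) = L)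
    (hcl : ∀ x ∈ L, ∀ y ∈ L, ∀ z ∈ L, ⁅⁅x, y⁆, z⁆ ∈ N) (hp : HasPath S N) : HasPath S L := by
  refine rel hS hNL hnorm hgen hp fun S' hS' h1 h2 h3 h4 => ?_
  obtain ⟨y, q, q1, q2, q3, -, -⟩ := Pool.Agent.Run7.h90.Ham.exists_path (S := S')
    (N := N.subgroupOf L) h1 h2 (fun x y z => by
      rw [Subgroup.mem_subgroupOf]
      exact hcl x x.2 y y.2 z z.2) h4
  exact ⟨q, q1, fun g => ⟨fun _ => trivial, fun _ => (q2 g).2 trivial⟩, q3⟩

/-- step with a subgroup of index two -/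
theorem step_two [Finite G] {S : Set G} (hS : ∀ x ∈ S, x⁻¹ ∈ S) {N A L : Subgroup G}
    (hNA : N ≤ A) (hAL : A ≤ L) (hnorm : ∀ x ∈ L, ∀ n ∈ N, x * n * x⁻¹ ∈ N)
    (hgen : Subgroup.closure (S ∩ L) = L) (h2 : A.relIndex L = 2)
    (hHn : ∀ a ∈ A, ∀ h ∈ S ∩ A, a * h * a⁻¹ ∈ N ⊔ Subgroup.closure (S ∩ A))
    (hc : ∀ g ∈ L, ∀ a ∈ S ∩ A, ∀ b ∈ S ∩ A,
      a * (g * b * g⁻¹) * a⁻¹ * (g * b * g⁻¹)⁻¹ ∈ N)
    (hcom : ∀ a ∈ A, ∀ b ∈ A, a * b * a⁻¹ * b⁻¹ ∈
      N ⊔ Subgroup.closure {y | ∃ g ∈ L, ∃ x ∈ S ∩ A, y = g * x * g⁻¹})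
    (hp : HasPath S N) : HasPath S L := by
  refine rel hS (hNA.trans hAL) hnorm hgen hp fun S' hS' h1 h2' h3 h4 => ?_
  obtain ⟨x₀, y₀, h5⟩ := ham_of_list h4
  have hNA' : N.subgroupOf L ≤ A.subgroupOf L := fun x hx => by
    rw [Subgroup.mem_subgroupOf] at hx ⊢
    exact hNA hx
  have himg : (L.subtype '' (S' ∩ (A.subgroupOf L : Set ↥L))) = S ∩ A := by
    ext x
    constructor
    · rintro ⟨y, ⟨hy1, hy2⟩, rfl⟩
      rw [hS'] at hy1
      exact ⟨hy1, Subgroup.mem_subgroupOf.1 hy2⟩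
    · rintro ⟨hx1, hx2⟩
      refine ⟨⟨x, hAL hx2⟩, ⟨?_, Subgroup.mem_subgroupOf.2 hx2⟩, rfl⟩
      rw [hS']
      exact hx1
  obtain ⟨s, hs, y, hy⟩ := quot_two_gen h1 h2' hNA' h2
    (by
      intro a ha h hh
      rw [memL, Subgroup.map_sup, map_sub (hNA.trans hAL), MonoidHom.map_closure, himg]
      refine hHn a (Subgroup.mem_subgroupOf.1 ha) h ?_
      rw [← himg]
      exact ⟨h, hh, rfl⟩)
    (by
      intro g a ha b hb
      rw [Subgroup.mem_subgroupOf]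
      refine hc g g.2 a ?_ b ?_
      · rw [← himg]; exact ⟨a, ha, rfl⟩
      · rw [← himg]; exact ⟨b, hb, rfl⟩)
    (by
      intro a ha b hb
      have h6 := hcom a (Subgroup.mem_subgroupOf.1 ha) b (Subgroup.mem_subgroupOf.1 hb)
      rw [memL, Subgroup.map_sup, map_sub (hNA.trans hAL)]
      refine (sup_le_sup_left ?_ N) h6
      rw [Subgroup.closure_le]
      rintro _ ⟨g, hg, x, hx, rfl⟩
      rw [← himg] at hx
      obtain ⟨x', hx', rfl⟩ := hx
      refine ⟨⟨g, hg⟩ * x' * (⟨g, hg⟩ : ↥L)⁻¹, ?_, rfl⟩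
      exact Subgroup.normalClosure_normal.conj_mem _ (Subgroup.subset_normalClosure hx') _)
    h5
  exact hasPath_of_ham hy

end Rel

end Run7.h251.HT
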